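import Pool.Agent.H57.SWB.Aes

/-!
# Closed affine charts over the base with small coefficients

`ChR`: the closed affine chart of `k` over the coordinate `y` alone, with small coefficients and the
velocity, at the window `b`. `ChN`: at all windows of `G` near a point. `aeSw_ch`: the place `1` of the
swapped list, at almost every window.
-/

set_option autoImplicit false

namespace Pool.TSW50

open Finset Real MvPolynomial MeasureTheory Filter Topology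
open Pool.Agent.H49.Ent Pool.Agent.H32.Dense Pool.STK Pool.KA Pool.KSAT Pool.K2S Pool.PB Pool.S6C
open Pool.GEN Pool.CHT Pool.CHX Pool.ISO Pool.RCD Pool.LA91 Pool.AVG96 Pool.AVG50 Pool.CDX
open Pool.PKG Pool.OWN68 Pool.OWN83 Pool.D2F2 Pool.AVG57 Pool.SWP
open Pool.TOP (TopS)
open Pool.MIC6 (ActF her_sub)
open Pool.OWN17 (Gdw cht_cls cnt_L ChA cpl crs)
open Pool.OWN72 (epo cc_epo Ctw Dsc gs_act ctw_ae dns_pt dsc_pos)

variable {m : ℕ}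

/-- **A closed affine chart** of `k` over the coordinate `y`, of precision `p`, at the window `b`. -/
def ChR (S : PCl m) (y k : Fin m) (b p : ℝ) : Prop :=
  ∀ e : ℝ, 0 < e → Bas S (fun J F A => ∃ a : LnT F → Fin 4 → ℝ,
    ChA F y y k ⌊b * J⌋₊ ⌊(p - e) * J⌋₊ ⌊e * J⌋₊ a A)

theorem ChR.sub {S S' : PCl m} {y k : Fin m} {b p : ℝ} (h : ChR S y k b p)
    (hs : ∀ (τ : ℝ) (J : ℕ) (F : Fam m J) (A : F.Ω → Prop), S'.St τ J F A → S.St τ J F A) :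
    ChR S' y k b p := fun e he => (h e he).sub hs

/-- A chart in a smaller window. -/
theorem ChR.win {S : PCl m} {y k : Fin m} {b w p p' : ℝ} (h : ChR S y k b p) (hb : b ≤ w)
    (hw : w ≤ 1) (hp : p' ≤ p) : ChR S y k w p' := fun e he => by
  refine Bas.mono 0 (h e he) ?_
  rintro J - F A ⟨a, ha⟩
  have hJ0 : (0 : ℝ) ≤ J := Nat.cast_nonneg J
  refine ⟨fun s => a (crs ⌊b * J⌋₊ ⌊w * J⌋₊ s), ((ha.win (Nat.floor_le_floor
    (mul_le_mul_of_nonneg_right hb hJ0)) (floor_le hw J)).mono (Nat.floor_le_floor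
    (mul_le_mul_of_nonneg_right (by linarith) hJ0)) le_rfl)⟩

/-- **Closed affine charts over the base** at all windows of `G` near `g`. -/
def ChN (S : PCl m) (c : ℕ → Fin m) (sn : ℝ → ℕ → ℝ) (G : Set ℝ) (g : ℝ) (l : ℕ) : Prop :=
  ∀ κ : ℝ, 0 < κ → ∃ ρ : ℝ, 0 < ρ ∧ ∀ R : ℝ, 0 < R → R < ρ → ∀ w ∈ G, g - R ≤ w → w ≤ g + R →
    ChR S (c 0) (c l) w (sn w l - κ * R)

theorem ChN.sub {S S' : PCl m} {c : ℕ → Fin m} {sn : ℝ → ℕ → ℝ} {G : Set ℝ} {g : ℝ} {l : ℕ}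
    (h : ChN S c sn G g l)
    (hs : ∀ (τ : ℝ) (J : ℕ) (F : Fam m J) (A : F.Ω → Prop), S'.St τ J F A → S.St τ J F A) :
    ChN S' c sn G g l := fun κ hκ => by
  obtain ⟨ρ, hρ, H⟩ := h κ hκ
  exact ⟨ρ, hρ, fun R hR hRρ w hw w1 w2 => (H R hR hRρ w hw w1 w2).sub hs⟩

/-- From a dense subset of the windows to all windows. -/
theorem ChN.big {S : PCl m} {c : ℕ → Fin m} {sn : ℝ → ℕ → ℝ} {G G' : Set ℝ} {g : ℝ}
    {i r₀ r : ℕ} {Sl : ℕ → ℝ} (h : ChN S c sn G' g i) (hS : SlpG sn r₀ r G g Sl)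
    (h0 : r₀ ≤ i) (hi : i ≤ r) (hsub : G' ⊆ G) (hG1 : ∀ w ∈ G, w ≤ 1)
    (hgap : ∀ η : ℝ, 0 < η → ∃ ρ : ℝ, 0 < ρ ∧ ∀ t : ℝ, 0 < t → t < ρ → ∀ x : ℝ, g - t ≤ x →
      x ≤ g + t → ∃ u ∈ G', x - η * t ≤ u ∧ u ≤ x) : ChN S c sn G g i := by
  intro κ hκ
  have hS0 := hS.nn i h0 hi
  obtain ⟨η, hη⟩ : ∃ η : ℝ, η = min (κ / (4 * (Sl i + 1))) 1 := ⟨_, rfl⟩
  have k0 : 0 < η := by rw [hη]; positivity
  have k1 : η ≤ 1 := by rw [hη]; exact min_le_right _ _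
  have k2 : Sl i * η ≤ κ / 4 := by
    have h1 : η ≤ κ / (4 * (Sl i + 1)) := by rw [hη]; exact min_le_left _ _
    calc Sl i * η ≤ (Sl i + 1) * η := mul_le_mul_of_nonneg_right (by linarith) k0.le
      _ ≤ (Sl i + 1) * (κ / (4 * (Sl i + 1))) := mul_le_mul_of_nonneg_left h1 (by linarith)
      _ = κ / 4 := by field_simp
  obtain ⟨ρ₁, hρ₁, H1⟩ := hgap η k0
  obtain ⟨ρ₂, hρ₂, H2⟩ := hS.sl i h0 hi (κ / 8) (by positivity)
  obtain ⟨ρ₃, hρ₃, H3⟩ := h (κ / 8) (by positivity)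
  refine ⟨min ρ₁ (min (ρ₂ / 2) (ρ₃ / 2)), by positivity, fun R hR hRρ w hw w1 w2 => ?_⟩
  have r1 : R < ρ₁ := hRρ.trans_le (min_le_left _ _)
  have r2 : R < ρ₂ / 2 := hRρ.trans_le ((min_le_right _ _).trans (min_le_left _ _))
  have r3 : R < ρ₃ / 2 := hRρ.trans_le ((min_le_right _ _).trans (min_le_right _ _))
  obtain ⟨u, hu, u1, u2⟩ := H1 R hR r1 w w1 w2
  have hηR : η * R ≤ 1 * R := mul_le_mul_of_nonneg_right k1 hR.le
  refine (H3 (2 * R) (by linarith) (by linarith) u hu (by linarith) (by linarith)).win u2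
    (hG1 w hw) ?_
  have h4 := (abs_le.1 (H2 (2 * R) (by linarith) (by linarith) u (hsub hu) w hw (by linarith) u2
    (by linarith))).2
  have h5 : Sl i * (w - u) ≤ Sl i * (η * R) := mul_le_mul_of_nonneg_left (by linarith) hS0
  have h6 : Sl i * (η * R) = Sl i * η * R := by ring
  have h7 := mul_le_mul_of_nonneg_right k2 hR.le
  have h8 := mul_pos hκ hR
  linarith

/-- **The charts of a dense set of windows.** -/
theorem chN_of {S : PCl m} {c : ℕ → Fin m} {r₀ r i : ℕ} {sn : ℝ → ℕ → ℝ} {G : Set ℝ} {g : ℝ}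
    {Sl : ℕ → ℝ} (hS : SlpG sn r₀ r G g Sl) (h0 : r₀ ≤ i) (hi : i ≤ r) {T : Set ℝ} {L : ℝ → ℝ}
    (hL : ∀ a b, a ≤ b → L a ≤ L b) (hG1 : ∀ w ∈ G, w ≤ 1) {ρ₀ : ℝ} (hρ₀ : 0 < ρ₀)
    (hLs : ∀ w ∈ G, g - ρ₀ ≤ w → w ≤ g + ρ₀ → sn w i = L w)
    (hT : ∀ a b : ℝ, g - ρ₀ ≤ a → a < b → b ≤ g + ρ₀ → ∃ t ∈ T, a < t ∧ t < b)
    (hA : ∀ t ∈ T, ChR S (c 0) (c i) t (L t)) : ChN S c sn G g i := by
  intro κ hκ
  have hS0 := hS.nn i h0 hi
  obtain ⟨κ₁, hκ₁⟩ : ∃ κ₁, κ₁ = min (κ / (4 * (Sl i + 1))) (1 / 2) := ⟨_, rfl⟩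
  have k0 : 0 < κ₁ := by rw [hκ₁]; positivity
  have k1 : κ₁ ≤ 1 / 2 := by rw [hκ₁]; exact min_le_right _ _
  have k2 : Sl i * (2 * κ₁) ≤ κ / 2 := by
    have h1 : κ₁ ≤ κ / (4 * (Sl i + 1)) := by rw [hκ₁]; exact min_le_left _ _
    calc Sl i * (2 * κ₁) ≤ (Sl i + 1) * (2 * κ₁) :=
          mul_le_mul_of_nonneg_right (by linarith) (by positivity)
      _ ≤ (Sl i + 1) * (2 * (κ / (4 * (Sl i + 1)))) :=
          mul_le_mul_of_nonneg_left (by linarith) (by positivity)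
      _ = κ / 2 := by field_simp; ring
  obtain ⟨ρ₁, hρ₁, H1⟩ := slpG_win hS k0.le k0 (by linarith)
  obtain ⟨ρ₂, hρ₂, H2⟩ := slpG_lev hS (M := 2) (κ := κ / 2) (by norm_num) (by positivity)
  refine ⟨min (min ρ₁ ρ₂) (ρ₀ / 2), by positivity, fun R hR hRρ w hw w1 w2 => ?_⟩
  have r1 : R < ρ₁ := hRρ.trans_le ((min_le_left _ _).trans (min_le_left _ _))
  have r2 : R < ρ₂ := hRρ.trans_le ((min_le_left _ _).trans (min_le_right _ _))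
  have r3 : R < ρ₀ / 2 := hRρ.trans_le (min_le_right _ _)
  obtain ⟨v, hv, v1, v2⟩ := H1 R hR r1 w w1 w2
  have hκR : 0 < κ₁ * R := by positivity
  have hκR2 : κ₁ * R ≤ 1 / 2 * R := mul_le_mul_of_nonneg_right k1 hR.le
  obtain ⟨t, ht, t1, t2⟩ := hT v w (by linarith) (by linarith) (by linarith)
  refine (hA t ht).win t2.le (hG1 w hw) ?_
  have h1 := (abs_le.1 (H2 R hR r2 i h0 hi v hv w hw (by linarith) (by linarith)
    (by linarith))).2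
  have h2 := hL v t t1.le
  rw [← hLs v hv (by linarith) (by linarith)] at h2
  have h3 : Sl i * (w - v) ≤ Sl i * (2 * κ₁ * R) := mul_le_mul_of_nonneg_left (by linarith) hS0
  have h4 : Sl i * (2 * κ₁ * R) = Sl i * (2 * κ₁) * R := by ring
  have h5 := mul_le_mul_of_nonneg_right k2 hR.le
  linarith

/-- **Charts in a subclass**, at countably many good windows. -/
theorem cha_all {S : PCl m} (hS : S.Ne) {C₀ : ℝ} (hC₀ : 0 ≤ C₀) (htm : TmC S C₀)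
    {L : Finset (Fin m) → Fin m → ℝ → ℝ → ℝ} (hL : LamW S L) {y u v : Fin m} (hyu : y ≠ u)
    (hact : ActF S y) {G : Set ℝ} (hG : G.Countable) (hGd : ∀ t ∈ G, Gdw L y u v t) :
    ∃ S' : PCl m, S'.Ne ∧
      (∀ (τ : ℝ) (J : ℕ) (F : Fam m J) (A : F.Ω → Prop), S'.St τ J F A → S.St τ J F A) ∧
      ∀ t ∈ G, ChR S' y u t (L {y} u t t) := by
  classical
  rcases G.eq_empty_or_nonempty with he | hne
  · exact ⟨S, hS, fun _ _ _ _ h => h, fun t ht => by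
      rw [he] at ht
      exact ht.elim⟩
  obtain ⟨f, hf⟩ := hG.exists_eq_range hne
  obtain ⟨pr, hpr⟩ : ∃ pr : ℕ → ℕ × ℕ, Function.Surjective pr :=
    ⟨Nat.unpair, Nat.surjective_unpair⟩
  obtain ⟨S', h1, h2, h3⟩ := her_sub hS (fun n J F A => ∃ a : LnT F → Fin 4 → ℝ,
      ChA F y y u ⌊f (pr n).1 * J⌋₊ ⌊(L {y} u (f (pr n).1) (f (pr n).1) -
        1 / ((pr n).2 + 1)) * J⌋₊ ⌊1 / ((pr n).2 + 1 : ℝ) * J⌋₊ a A)
    (fun n J F A B hB hA => by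
      obtain ⟨a, ha⟩ := hA
      exact ⟨a, ha.sub hB⟩) (fun n => by
      have ht : f (pr n).1 ∈ G := by
        rw [hf]
        exact ⟨_, rfl⟩
      refine ⟨25600, Bas.mono 0 (cht_cls hS hC₀ htm hL hyu hact (hGd _ ht)
        (e := 1 / ((pr n).2 + 1)) (by positivity)) ?_⟩
      rintro J - F A ⟨a, b, B, q1, q2, q3, -, q5⟩
      exact ⟨B, q1, q2, a, q3⟩)
  refine ⟨S', h1, h2, fun t ht e he => ?_⟩
  rw [hf] at ht
  obtain ⟨i, rfl⟩ := ht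
  obtain ⟨n₀, hn₀⟩ := exists_nat_ge (1 / e)
  obtain ⟨n, hn⟩ := hpr (i, n₀)
  have h4 := h3 n
  rw [hn] at h4
  simp only at h4
  have hle : 1 / ((n₀ : ℝ) + 1) ≤ e := by
    rw [div_le_iff₀ (by positivity)]
    rw [div_le_iff₀ he] at hn₀
    nlinarith
  refine Bas.mono 0 h4 ?_
  rintro J - F A ⟨a, ha⟩
  have hJ0 : (0 : ℝ) ≤ J := Nat.cast_nonneg J
  exact ⟨a, ha.mono (Nat.floor_le_floor (mul_le_mul_of_nonneg_right (by linarith) hJ0))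
    (Nat.floor_le_floor (mul_le_mul_of_nonneg_right hle hJ0))⟩

/-- **Charts of the place `1` over the base** from its diagonal numbers, in a subclass. -/
theorem chN_one {S : PCl m} (hS : S.Ne) {C₀ : ℝ} (hC₀ : 0 ≤ C₀) (htm : TmC S C₀)
    {L : Finset (Fin m) → Fin m → ℝ → ℝ → ℝ} (hL : LamW S L) {c : ℕ → Fin m} (h01 : c 0 ≠ c 1)
    (hact : ActF S (c 0)) :
    ∃ S' : PCl m, S'.Ne ∧
      (∀ (τ : ℝ) (J : ℕ) (F : Fam m J) (A : F.Ω → Prop), S'.St τ J F A → S.St τ J F A) ∧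
      ∀ {r₀ r : ℕ} {sn : ℝ → ℕ → ℝ} {G : Set ℝ} {g : ℝ} {Sl : ℕ → ℝ},
        SlpG sn r₀ r G g Sl → g ∈ G → (∀ w ∈ G, w ≤ 1) → r₀ ≤ 1 → 2 ≤ r →
        ∀ {ρ₀ : ℝ}, 0 < ρ₀ →
        (∀ w ∈ G, g - ρ₀ ≤ w → w ≤ g + ρ₀ → sn w 1 = L {c 0} (c 1) w w) →
        (∀ w ∈ G, g - ρ₀ ≤ w → w ≤ g + ρ₀ → sn w 2 ≤ L {c 0, c 1} (c 2) w w) →
        0 < g → g < sn g 1 → g < sn g 2 → sn g 1 < 1 → ChN S' c sn G g 1 := by
  classical
  obtain ⟨T, hTs, hTc, hTd⟩ := (TopologicalSpace.IsSeparable.of_separableSpace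
    {t : ℝ | Gdw L (c 0) (c 1) (c 2) t}).exists_countable_dense_subset
  obtain ⟨S', s1, s2, s3⟩ := cha_all hS hC₀ htm hL h01 hact (v := c 2) hTc fun t ht => hTs ht
  refine ⟨S', s1, s2, ?_⟩
  intro r₀ r sn G g Sl hSl hgG hG1 hr₀ hr ρ₀ hρ₀ hsn hsn2 hg0 hu hv hu1
  obtain ⟨ρ, hρ, hρ1, H⟩ := gdw_nearW (r₀ := r₀) (r := r) (i := 1) (y := c 0) (u := c 1)
    (v := c 2) hL hSl hgG hr₀ hr hρ₀ hsn hsn2 hg0 hu hv hu1
  have hden : ∀ a b : ℝ, g - ρ / 2 ≤ a → a < b → b ≤ g + ρ / 2 → ∃ t ∈ T, a < t ∧ t < b := by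
    intro a b a1 ab b1
    have hcnt : ({W : ℝ | ¬ ContinuousAt (fun W => L {c 0} (c 1) W W) W} ∪
        {W : ℝ | ¬ ContinuousAt (fun W => L {c 0, c 1} (c 2) W W) W}).Countable :=
      (cnt_L hL {c 0} (c 1)).2.union (cnt_L hL {c 0, c 1} (c 2)).2
    obtain ⟨t, ht, hti⟩ := (hcnt.dense_compl ℝ).exists_mem_open isOpen_Ioo
      (Set.nonempty_Ioo.mpr ab)
    simp only [Set.mem_compl_iff, Set.mem_union, Set.mem_ofPred_eq, not_or, not_not] at ht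
    have hgd := H t (by linarith [hti.1]) (by linarith [hti.2]) ht.1 ht.2
    obtain ⟨t', ht', htT⟩ := mem_closure_iff.1 (hTd hgd) (Set.Ioo a b) isOpen_Ioo hti
    exact ⟨t', htT, ht'.1, ht'.2⟩
  exact chN_of (r₀ := r₀) (r := r) hSl hr₀ (by omega) (L := fun w => L {c 0} (c 1) w w)
    (fun a b hab => hL.mono _ _ _ _ _ _ _ (Finset.Subset.refl _) hab hab) hG1
    (ρ₀ := ρ / 2) (by positivity) (fun w hw w1 w2 => hsn w hw (by linarith) (by linarith)) hden s3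

end Pool.TSW50
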