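import Pool.Agent.H50.TSW.Chv

/-!
# Closed affine charts over the base, as properties of the windows

`chN_core`: the charts of the places `1`, `2` over the base at almost every window of a closed set of
good windows where the place `2` has closed labels of its level over the base alone. `aePG_ch1`: the
place `1`. `aeSw_ch`: the places `1` and `2` of the swapped list.
-/

set_option autoImplicit false

namespace Pool.TSW50

open Finset Real MvPolynomial MeasureTheory Filter Topology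
open Pool.Agent.H49.Ent Pool.Agent.H32.Dense Pool.STK Pool.KA Pool.KSAT Pool.K2S Pool.PB Pool.S6C
open Pool.GEN Pool.CHT Pool.CHX Pool.ISO Pool.RCD Pool.LA91 Pool.AVG96 Pool.AVG50 Pool.CDX
open Pool.PKG Pool.OWN68 Pool.OWN83 Pool.D2F2 Pool.AVG57 Pool.SWP
open Pool.TOP (TopS)
open Pool.OWN72 (epo cc_epo Ctw Dsc gs_act ctw_ae dns_pt dsc_pos)

/-- **Closed affine charts over the base**, as a property of the windows. -/
def ChQ (k : ℕ) {n : ℕ} (_ : Unit) (_ : ℕ) (S : PCl n) (_ : List (Fin n) × Fin n → ℝ → ℝ → ℝ)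
    (_ : ℝ) (c : ℕ → Fin n) (_ : ℝ → ℝ → ℝ) (_ : ℝ → ℝ) (L _ : ℕ → ℝ → ℝ → ℝ) (_ : ℕ → Kg)
    (G : Set ℝ) (x : ℝ) : Prop :=
  1 < deriv (fun a => L 1 a a) x → 1 < deriv (fun a => L 2 a a) x →
    ChN S c (fun w l => L l w w) G x k

theorem her_ch (k n : ℕ) : HerQ (ChQ k : PropG n Unit) := by
  intro p k₀ S S' P θ c Pt r L T κ G x hs h h1 h2
  exact (h h1 h2).sub hs

variable {n : ℕ} {hn : 2 ≤ n} {S : PCl n} {P : ℝ → ℝ → ℝ} {rr : ℝ → ℝ}
  {P' : ℕ → List (Fin n) × Fin n → ℝ → ℝ → ℝ} {Λ : Finset (Fin n) → Fin n → ℝ → ℝ → ℝ}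
  {PB : ℕ → List (Fin n) × Fin n → ℝ → ℝ → ℝ} {PQ : ℚ → List (Fin n) × Fin n → ℝ → ℝ → ℝ}

/-- **The charts of the place `1` over the base**. -/
theorem chN_c1 (H : PkB hn S P rr P' Λ PB PQ) (hTop : TopS n) (hF : FZX (n - 1))
    (hn3 : 2 < n - 1) {o : Od n} {G : Set ℝ} (hG : IsClosed G) (hGs : G ⊆ Gs P rr P' Λ o) :
    ∃ S' : PCl n, S'.Ne ∧
      (∀ (τ : ℝ) (J : ℕ) (F : Fam n J) (A : F.Ω → Prop), S'.St τ J F A → S.St τ J F A) ∧
      ∀ᵐ g : ℝ, g ∈ G → 1 < deriv (fun a => LvL hn P P' o 1 a a) g →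
        ChN S' (cc hn o.1.1) (fun w l => LvL hn P P' o l w w) G g 1 := by
  have h01 : cc hn o.1.1 0 ≠ cc hn o.1.1 1 := fun h => by
    have := cc_inj' hn o.1.1 (i := 0) (j := 1) (by omega) (by omega) h
    omega
  obtain ⟨S', s1, s2, s3⟩ := chN_one H.toPk.ne (by norm_num) H.toPk.tmc H.toPk.lam h01
    (gs_act H.toPk o)
  refine ⟨S', s1, s2, ?_⟩
  have hct : ∀ᵐ g : ℝ, g ∈ Ctw Λ := by
    have h1 := (ctw_ae (Λ := Λ) H.toPk.lam).ae_notMem volume
    filter_upwards [h1] with g hg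
    by_contra hcon
    exact hg hcon
  filter_upwards [hct, dns_pt (G ∩ Ctw Λ), gap_ae hG, H.toPkT.dia_all H.pble hTop hF,
    sl_one H.toPkT hTop hF] with g kct kdn kgap kdia ksl hg hs1
  have hgG := hGs hg
  have hds : Dsc (G ∩ Ctw Λ) g := kdn ⟨hg, kct⟩
  have hsub : G ∩ Ctw Λ ⊆ Gs P rr P' Λ o ∩ Ctw Λ := fun x hx => ⟨hGs hx.1, hx.2⟩
  have hder : ∀ l, l ≤ n - 1 → HasDerivAt (fun a => LvL hn P P' o l a a)
      (deriv (fun a => LvL hn P P' o l a a) g) g := fun l hl =>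
    (kdia o hgG l hl).1.hasDerivAt
  have hnn : ∀ l, 1 ≤ l → l ≤ 2 → 0 ≤ deriv (fun a => LvL hn P P' o l a a) g := fun l _ hl => by
    have h5 : 1 ≤ deriv (fun a => LvL hn P P' o l a a) g := ksl o hgG l (by omega)
    linarith
  have hgt : ∀ l, 1 ≤ l → l < 2 → 1 < deriv (fun a => LvL hn P P' o l a a) g := fun l h3 h4 => by
    obtain rfl : l = 1 := by omega
    exact hs1
  have hSG : SlpG (fun w l => LvL hn P P' o l w w) 1 2 G g
      (fun l => deriv (fun a => LvL hn P P' o l a a) g) :=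
    slpG_of hnn hgt (fun l _ h4 => (hder l (by omega)).hasDerivWithinAt) (kgap hg)
  have hSG' : SlpG (fun w l => LvL hn P P' o l w w) 1 2 (G ∩ Ctw Λ) g
      (fun l => deriv (fun a => LvL hn P P' o l a a) g) :=
    slpG_of hnn hgt (fun l _ h4 => (hder l (by omega)).hasDerivWithinAt) (gap_dsc hds)
  have hle : ∀ a ∈ Gs P rr P' Λ o, a ≤ LvL hn P P' o 1 a a := fun a ha => by
    rw [gs_lvl H.toPk hTop hF ha (by omega)]
    exact le_vs H.toPk.lam (epo hn o) ha.1.1.2.1.le _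
  have hlo : g < LvL hn P P' o 1 g g := by
    have h5 := dsc_pos hds (f := fun a => LvL hn P P' o 1 a a - a)
      (s := deriv (fun a => LvL hn P P' o 1 a a) g - 1)
      ((hder 1 (by omega)).sub (hasDerivAt_id g)) (by linarith)
      (fun a ha => by
        have := hle a (hGs ha.1)
        show 0 ≤ LvL hn P P' o 1 a a - a
        linarith) (by
        have := hle g hgG
        show 0 ≤ LvL hn P P' o 1 g g - g
        linarith)
    have h6 : 0 < LvL hn P P' o 1 g g - g := h5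
    linarith
  have hlo2 : LvL hn P P' o 1 g g ≤ LvL hn P P' o 2 g g := by
    rw [gs_lvl H.toPk hTop hF hgG (by omega), gs_lvl H.toPk hTop hF hgG hn3]
    have h1 : Vgr Λ (epo hn o) g := hgG.1.1.2.2.1
    exact h1.mono H.toPk.lam hgG.1.1.2.1.le (by omega)
  obtain ⟨ρ₀, hρ₀, h6⟩ := near_two H.toPk hTop hF hn3 hsub hds hs1 (hder 1 (by omega)) hlo
  have h7 := s3 hSG' ⟨hg, kct⟩ (fun w hw => (hGs hw.1).1.1.2.1.le) le_rfl le_rfl hρ₀
    (fun w hw w1 w2 => lev_one H.toPk hTop hF (hGs hw.1) (by omega))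
    (fun w hw w1 w2 => (h6 w hw w1 w2).le) hgG.1.1.1 hlo (hlo.trans_le hlo2)
    (lev_lt H.toPk hTop hF hgG (by omega))
  exact h7.big hSG le_rfl (by norm_num) Set.inter_subset_left
    (fun w hw => (hGs hw).1.1.2.1.le) (gap_dsc hds)

/-- **The charts of the place `2` over the base**, if it has closed labels of its level over the base
alone. -/
theorem chN_c2 (H : PkB hn S P rr P' Λ PB PQ) (hTop : TopS n) (hF : FZX (n - 1))
    (hn3 : 2 < n - 1) {o : Od n} {G : Set ℝ} (hG : IsClosed G) (hGs : G ⊆ Gs P rr P' Λ o)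
    (hdg : ∀ w ∈ G, LvL hn P P' o 2 w w ≤
      Λ ((range 1).image (cc hn o.1.1)) (cc hn o.1.1 2) w w) :
    ∃ S' : PCl n, S'.Ne ∧
      (∀ (τ : ℝ) (J : ℕ) (F : Fam n J) (A : F.Ω → Prop), S'.St τ J F A → S.St τ J F A) ∧
      ∀ᵐ g : ℝ, g ∈ G → 1 < deriv (fun a => LvL hn P P' o 1 a a) g →
        1 < deriv (fun a => LvL hn P P' o 2 a a) g →
        ChN S' (cc hn o.1.1) (fun w l => LvL hn P P' o l w w) G g 2 := by
  obtain ⟨c, hc⟩ : ∃ c : ℕ → Fin n, c = fun l => cc hn o.1.1 (sw 1 l) := ⟨_, rfl⟩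
  obtain ⟨sn, hsn⟩ : ∃ sn : ℝ → ℕ → ℝ, sn = fun w l => LvL hn P P' o (sw 1 l) w w := ⟨_, rfl⟩
  have s0 : sw 1 0 = 0 := sw_lt one_pos
  have s1 : sw 1 1 = 2 := sw_k 1
  have s2 : sw 1 2 = 1 := sw_k1 1
  have c0 : c 0 = cc hn o.1.1 0 := by rw [hc]; show cc hn o.1.1 (sw 1 0) = _; rw [s0]
  have c1 : c 1 = cc hn o.1.1 2 := by rw [hc]; show cc hn o.1.1 (sw 1 1) = _; rw [s1]
  have c2 : c 2 = cc hn o.1.1 1 := by rw [hc]; show cc hn o.1.1 (sw 1 2) = _; rw [s2]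
  have n1 : ∀ w, sn w 1 = LvL hn P P' o 2 w w := fun w => by
    rw [hsn]; show LvL hn P P' o (sw 1 1) w w = _; rw [s1]
  have n2 : ∀ w, sn w 2 = LvL hn P P' o 1 w w := fun w => by
    rw [hsn]; show LvL hn P P' o (sw 1 2) w w = _; rw [s2]
  have h01 : c 0 ≠ c 1 := fun h => by
    rw [c0, c1] at h
    have := cc_inj' hn o.1.1 (i := 0) (j := 2) (by omega) (by omega) h
    omega
  obtain ⟨S', b1, b2, b3⟩ := chN_one H.toPk.ne (by norm_num) H.toPk.tmc H.toPk.lam h01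
    (by rw [c0]; exact gs_act H.toPk o)
  refine ⟨S', b1, b2, ?_⟩
  have hct : ∀ᵐ g : ℝ, g ∈ Ctw Λ := by
    have h1 := (ctw_ae (Λ := Λ) H.toPk.lam).ae_notMem volume
    filter_upwards [h1] with g hg
    by_contra hcon
    exact hg hcon
  filter_upwards [hct, dns_pt (G ∩ Ctw Λ), gap_ae hG, H.toPkT.dia_all H.pble hTop hF,
    sl_one H.toPkT hTop hF] with g kct kdn kgap kdia ksl hg hs1 hs2
  have hgG := hGs hg
  have hds : Dsc (G ∩ Ctw Λ) g := kdn ⟨hg, kct⟩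
  have hsub : G ∩ Ctw Λ ⊆ Gs P rr P' Λ o ∩ Ctw Λ := fun x hx => ⟨hGs hx.1, hx.2⟩
  have hder : ∀ l, l ≤ n - 1 → HasDerivAt (fun a => LvL hn P P' o l a a)
      (deriv (fun a => LvL hn P P' o l a a) g) g := fun l hl =>
    (kdia o hgG l hl).1.hasDerivAt
  obtain ⟨Sl, hSl⟩ : ∃ Sl : ℕ → ℝ, Sl = fun l => deriv (fun a => LvL hn P P' o (sw 1 l) a a) g :=
    ⟨_, rfl⟩
  have hsl : ∀ l, 1 ≤ l → l ≤ 2 → 1 < Sl l ∧ HasDerivAt (fun a => sn a l) (Sl l) g := by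
    intro l l0 l1
    have : l = 1 ∨ l = 2 := by omega
    rw [hSl, hsn]
    rcases this with rfl | rfl
    · show 1 < deriv (fun a => LvL hn P P' o (sw 1 1) a a) g ∧
        HasDerivAt (fun a => LvL hn P P' o (sw 1 1) a a)
          (deriv (fun a => LvL hn P P' o (sw 1 1) a a) g) g
      rw [s1]
      exact ⟨hs2, hder 2 (by omega)⟩
    · show 1 < deriv (fun a => LvL hn P P' o (sw 1 2) a a) g ∧
        HasDerivAt (fun a => LvL hn P P' o (sw 1 2) a a)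
          (deriv (fun a => LvL hn P P' o (sw 1 2) a a) g) g
      rw [s2]
      exact ⟨hs1, hder 1 (by omega)⟩
  have hnn : ∀ l, 1 ≤ l → l ≤ 2 → 0 ≤ Sl l := fun l l0 l1 => by
    have := (hsl l l0 l1).1
    linarith
  have hSG : SlpG sn 1 2 G g Sl := slpG_of hnn (fun l l0 l1 => (hsl l l0 l1.le).1)
    (fun l l0 l1 => (hsl l l0 l1).2.hasDerivWithinAt) (kgap hg)
  have hSG' : SlpG sn 1 2 (G ∩ Ctw Λ) g Sl := slpG_of hnn (fun l l0 l1 => (hsl l l0 l1.le).1)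
    (fun l l0 l1 => (hsl l l0 l1).2.hasDerivWithinAt) (gap_dsc hds)
  -- the levels at `g`
  have hle : ∀ a ∈ Gs P rr P' Λ o, a ≤ LvL hn P P' o 1 a a := fun a ha => by
    rw [gs_lvl H.toPk hTop hF ha (by omega)]
    exact le_vs H.toPk.lam (epo hn o) ha.1.1.2.1.le _
  have hlo : g < LvL hn P P' o 1 g g := by
    have h5 := dsc_pos hds (f := fun a => LvL hn P P' o 1 a a - a)
      (s := deriv (fun a => LvL hn P P' o 1 a a) g - 1)
      ((hder 1 (by omega)).sub (hasDerivAt_id g)) (by linarith)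
      (fun a ha => by
        have := hle a (hGs ha.1)
        show 0 ≤ LvL hn P P' o 1 a a - a
        linarith) (by
        have := hle g hgG
        show 0 ≤ LvL hn P P' o 1 g g - g
        linarith)
    have h6 : 0 < LvL hn P P' o 1 g g - g := h5
    linarith
  have hlo2 : LvL hn P P' o 1 g g ≤ LvL hn P P' o 2 g g := by
    rw [gs_lvl H.toPk hTop hF hgG (by omega), gs_lvl H.toPk hTop hF hgG hn3]
    have h1 : Vgr Λ (epo hn o) g := hgG.1.1.2.2.1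
    exact h1.mono H.toPk.lam hgG.1.1.2.1.le (by omega)
  obtain ⟨ρ₀, hρ₀, h6⟩ := near_two H.toPk hTop hF hn3 hsub hds hs1 (hder 1 (by omega)) hlo
  have im1 : (range 1).image (cc hn o.1.1) = {cc hn o.1.1 0} := by simp
  have h7 : ChN S' c sn (G ∩ Ctw Λ) g 1 := by
    refine b3 hSG' ⟨hg, kct⟩ (fun w hw => (hGs hw.1).1.1.2.1.le) le_rfl le_rfl hρ₀
      (fun w hw w1 w2 => ?_) (fun w hw w1 w2 => ?_) hgG.1.1.1 ?_ ?_ ?_
    · rw [n1, c0, c1]
      refine le_antisymm ?_ ?_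
      · have := hdg w hw.1
        rw [im1] at this
        exact this
      · rw [h6 w hw w1 w2]
        exact H.toPk.lam.mono _ _ _ _ _ _ _ (Finset.singleton_subset_iff.2
          (Finset.mem_insert_self _ _)) le_rfl le_rfl
    · rw [n2, c0, c1, c2, lev_one H.toPk hTop hF (hGs hw.1) (by omega)]
      exact H.toPk.lam.mono _ _ _ _ _ _ _ (Finset.singleton_subset_iff.2
        (Finset.mem_insert_self _ _)) le_rfl le_rfl
    · rw [n1]
      exact hlo.trans_le hlo2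
    · rw [n2]
      exact hlo
    · rw [n1]
      exact lev_lt H.toPk hTop hF hgG hn3
  have h8 : ChN S' c sn G g 1 := h7.big hSG le_rfl (by norm_num) Set.inter_subset_left
    (fun w hw => (hGs hw).1.1.2.1.le) (gap_dsc hds)
  intro κ hκ
  obtain ⟨ρ, hρ, H3⟩ := h8 κ hκ
  refine ⟨ρ, hρ, fun R hR hRρ w hw w1 w2 => ?_⟩
  have h9 := H3 R hR hRρ w hw w1 w2
  rw [c0, c1, n1] at h9
  exact h9

/-- **The place `1`** of the list. -/
theorem aePG_ch1 (n : ℕ) (hn3 : 2 < n - 1) : AePG n (ChQ 1 : PropG n Unit) := by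
  intro hn S P r P' Λ PB PQ H hTop hF o G hG hGs
  obtain ⟨S', a1, a2, a3⟩ := chN_c1 H hTop hF hn3 hG hGs
  refine ⟨S', a1, a2, ?_⟩
  filter_upwards [a3] with g h3 hg κ hκ p
  exact ⟨0, fun h1 _ => h3 hg h1⟩

/-- **The places `1`, `2` of the swapped list.** -/
theorem aeSw_ch {n : ℕ} (hn3 : 2 < n - 1) {k : ℕ} (hk : k = 1 ∨ k = 2) :
    AeSw n 1 (ChQ k : PropG n Unit) := by
  intro hn S P r P' Λ PB PQ H hTop hF o G hG hGs hdg hsw
  have s0 : sw 1 0 = 0 := sw_lt one_pos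
  have s1 : sw 1 1 = 2 := sw_k 1
  have s2 : sw 1 2 = 1 := sw_k1 1
  rcases hk with rfl | rfl
  · obtain ⟨S', a1, a2, a3⟩ := chN_c2 H hTop hF hn3 hG hGs hdg
    refine ⟨S', a1, a2, ?_⟩
    filter_upwards [a3] with g h3 hg κ hκ p
    refine ⟨0, fun h1 h2 κ hκ => ?_⟩
    have h4 : 1 < deriv (fun a => LvL hn P P' o (sw 1 1) a a) g := h1
    have h5 : 1 < deriv (fun a => LvL hn P P' o (sw 1 2) a a) g := h2
    rw [s1] at h4
    rw [s2] at h5
    obtain ⟨ρ, hρ, H3⟩ := h3 hg h5 h4 κ hκ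
    refine ⟨ρ, hρ, fun R hR hRρ w hw w1 w2 => ?_⟩
    show ChR S' (cc hn o.1.1 (sw 1 0)) (cc hn o.1.1 (sw 1 1)) w
      (LvL hn P P' o (sw 1 1) w w - κ * R)
    rw [s0, s1]
    exact H3 R hR hRρ w hw w1 w2
  · obtain ⟨S', a1, a2, a3⟩ := chN_c1 H hTop hF hn3 hG hGs
    refine ⟨S', a1, a2, ?_⟩
    filter_upwards [a3] with g h3 hg κ hκ p
    refine ⟨0, fun h1 h2 κ hκ => ?_⟩
    have h5 : 1 < deriv (fun a => LvL hn P P' o (sw 1 2) a a) g := h2
    rw [s2] at h5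
    obtain ⟨ρ, hρ, H3⟩ := h3 hg h5 κ hκ
    refine ⟨ρ, hρ, fun R hR hRρ w hw w1 w2 => ?_⟩
    show ChR S' (cc hn o.1.1 (sw 1 0)) (cc hn o.1.1 (sw 1 2)) w
      (LvL hn P P' o (sw 1 2) w w - κ * R)
    rw [s0, s2]
    exact H3 R hR hRρ w hw w1 w2

end Pool.TSW50
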